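import Pool.Agent.Helper63.ML.Defs

/-!
# ML-NS: no section (winding number)
-/

set_option autoImplicit false
namespace Pool.Agent.Helper63.ML
open Complex Metric
open scoped ComplexConjugate

theorem no_section (S : ℂ → ℂ) (hS : ContinuousOn S (closedBall 0 1))
    (h0 : ∀ c ∈ closedBall (0 : ℂ) 1, S c ≠ 0)
    (hb : ∀ c : ℂ, ‖c‖ = 1 → S c = c ^ 6 * S 1) : False := by
  classical
  have hcomp : IsCompact (closedBall (0 : ℂ) 1) := isCompact_closedBall 0 1
  -- lower bound
  obtain ⟨m, hm, hmin⟩ : ∃ m : ℝ, 0 < m ∧ ∀ z ∈ closedBall (0 : ℂ) 1, m ≤ ‖S z‖ := by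
    obtain ⟨z, hz, hzm⟩ := hcomp.exists_isMinOn ⟨0, by simp⟩ hS.norm
    exact ⟨‖S z‖, norm_pos_iff.mpr (h0 z hz), fun w hw => hzm hw⟩
  -- uniform continuity
  have huc : UniformContinuousOn S (closedBall (0 : ℂ) 1) :=
    hcomp.uniformContinuousOn_of_continuous hS
  rw [Metric.uniformContinuousOn_iff] at huc
  obtain ⟨δ, hδ, hδ'⟩ := huc m hm
  obtain ⟨N, hN⟩ := exists_nat_gt (1 / δ)
  have hN0 : 0 < (N : ℝ) := lt_trans (by positivity) hN
  have hNδ : 1 / (N : ℝ) < δ := by
    rw [div_lt_iff₀ hN0]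
    rw [div_lt_iff₀ hδ] at hN
    linarith
  have hmem : ∀ (z : ℂ), z ∈ closedBall (0 : ℂ) 1 → ∀ j : ℕ, j ≤ N →
      ((j : ℂ) * z / N) ∈ closedBall (0 : ℂ) 1 := by
    intro z hz j hj
    rw [mem_closedBall_zero_iff] at hz ⊢
    rw [norm_div, norm_mul, Complex.norm_natCast, Complex.norm_natCast, div_le_one hN0]
    have : (j : ℝ) ≤ N := by exact_mod_cast hj
    calc (j : ℝ) * ‖z‖ ≤ j * 1 := by gcongr
      _ ≤ N := by linarith
  -- the ratios
  have hratio : ∀ (z : ℂ), z ∈ closedBall (0 : ℂ) 1 → ∀ j : ℕ, j < N →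
      S (((j + 1 : ℕ) : ℂ) * z / N) / S ((j : ℂ) * z / N) ∈ slitPlane := by
    intro z hz j hj
    have ha := hmem z hz (j + 1) hj
    have hb' := hmem z hz j hj.le
    have hne := h0 _ hb'
    have hd : dist (((j + 1 : ℕ) : ℂ) * z / N) ((j : ℂ) * z / N) < δ := by
      rw [dist_eq_norm]
      have : ((j + 1 : ℕ) : ℂ) * z / N - (j : ℂ) * z / N = z / N := by
        push_cast; ring
      rw [this, norm_div, Complex.norm_natCast]
      rw [mem_closedBall_zero_iff] at hz
      calc ‖z‖ / (N : ℝ) ≤ 1 / N := by gcongr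
        _ < δ := hNδ
    have h1 := hδ' _ ha _ hb' hd
    rw [dist_eq_norm] at h1
    have h2 : ‖S (((j + 1 : ℕ) : ℂ) * z / N) / S ((j : ℂ) * z / N) - 1‖ < 1 := by
      have : S (((j + 1 : ℕ) : ℂ) * z / N) / S ((j : ℂ) * z / N) - 1 =
          (S (((j + 1 : ℕ) : ℂ) * z / N) - S ((j : ℂ) * z / N)) / S ((j : ℂ) * z / N) := by
        rw [sub_div, div_self hne]
      rw [this, norm_div, div_lt_one (norm_pos_iff.mpr hne)]
      exact lt_of_lt_of_le h1 (hmin _ hb')
    left
    have h3 := Complex.abs_re_le_norm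
      (S (((j + 1 : ℕ) : ℂ) * z / N) / S ((j : ℂ) * z / N) - 1)
    rw [Complex.sub_re, Complex.one_re] at h3
    have h4 := abs_lt.mp (lt_of_le_of_lt h3 h2)
    linarith [h4.1]
  -- the logarithm
  set l : ℂ → ℂ := fun z => ∑ j ∈ Finset.range N,
    Complex.log (S (((j + 1 : ℕ) : ℂ) * z / N) / S ((j : ℂ) * z / N)) with hl
  have hScont : ∀ j : ℕ, j ≤ N →
      ContinuousOn (fun z : ℂ => S ((j : ℂ) * z / N)) (closedBall (0 : ℂ) 1) := by
    intro j hj
    refine hS.comp (by fun_prop) ?_
    intro z hz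
    exact hmem z hz j hj
  have hlc : ContinuousOn l (closedBall (0 : ℂ) 1) := by
    rw [hl]
    refine continuousOn_finsetSum _ ?_
    intro j hj
    rw [Finset.mem_range] at hj
    refine ContinuousOn.clog ?_ (fun z hz => hratio z hz j hj)
    exact (hScont (j + 1) hj).div (hScont j hj.le) (fun z hz => h0 _ (hmem z hz j hj.le))
  have hexp : ∀ z ∈ closedBall (0 : ℂ) 1, Complex.exp (l z) = S z / S 0 := by
    intro z hz
    have hNc : (N : ℂ) ≠ 0 := by
      have : (N : ℝ) ≠ 0 := hN0.ne'
      exact_mod_cast this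
    have key : ∀ k : ℕ, k ≤ N → Complex.exp (∑ j ∈ Finset.range k,
        Complex.log (S (((j + 1 : ℕ) : ℂ) * z / N) / S ((j : ℂ) * z / N))) =
        S ((k : ℂ) * z / N) / S 0 := by
      intro k
      induction k with
      | zero =>
        intro _
        have := h0 0 (by simp)
        simp [div_self this]
      | succ k ih =>
        intro hk
        have hne := h0 _ (hmem z hz k (by omega))
        have hne' := h0 _ (hmem z hz (k + 1) hk)
        rw [Finset.sum_range_succ, Complex.exp_add, ih (by omega),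
          Complex.exp_log (div_ne_zero hne' hne)]
        field_simp
    have := key N le_rfl
    rw [show (N : ℂ) * z / N = z by field_simp] at this
    exact this
  -- the function on the circle
  have h1mem : (1 : ℂ) ∈ closedBall (0 : ℂ) 1 := by simp
  have hemem : ∀ t : ℝ, Complex.exp (t * I) ∈ closedBall (0 : ℂ) 1 := by
    intro t
    rw [mem_closedBall_zero_iff, Complex.norm_exp_ofReal_mul_I]
  set g : ℝ → ℂ := fun t => l (Complex.exp (t * I)) - l 1 - 6 * t * I with hg
  have hgc : Continuous g := by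
    rw [hg]
    have : Continuous (fun t : ℝ => l (Complex.exp (t * I))) := by
      have h : Continuous (fun t : ℝ => Complex.exp (t * I)) := by fun_prop
      exact hlc.comp_continuous h hemem
    exact (this.sub continuous_const).sub (by fun_prop)
  have hg1 : ∀ t : ℝ, Complex.exp (g t) = 1 := by
    intro t
    have hS0 := h0 0 (by simp)
    have hS1 := h0 1 h1mem
    simp only [hg]
    rw [Complex.exp_sub, Complex.exp_sub, hexp _ (hemem t), hexp _ h1mem,
      hb _ (Complex.norm_exp_ofReal_mul_I t), ← Complex.exp_nat_mul]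
    have : ((6 : ℕ) : ℂ) * (t * I) = 6 * t * I := by push_cast; ring
    rw [this]
    have hne := Complex.exp_ne_zero (6 * t * I)
    field_simp
  -- imaginary part
  have him : Continuous (fun t : ℝ => (g t).im) := Complex.continuous_im.comp hgc
  have hg0 : (g 0).im = 0 := by
    simp [hg]
  have hg2 : (g (2 * Real.pi)).im = -(12 * Real.pi) := by
    have : Complex.exp (((2 * Real.pi : ℝ) : ℂ) * I) = 1 := by
      push_cast
      exact Complex.exp_two_pi_mul_I
    simp only [hg]
    rw [this]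
    simp
    ring
  have hpi := Real.pi_pos
  have hivt := intermediate_value_Icc' (a := (0 : ℝ)) (b := 2 * Real.pi) (by positivity)
    (him.continuousOn)
  have hmemI : -Real.pi ∈ Set.Icc ((g (2 * Real.pi)).im) ((g 0).im) := by
    rw [hg0, hg2]
    constructor <;> linarith
  obtain ⟨t, -, ht⟩ := hivt hmemI
  have h1 := hg1 t
  rw [Complex.exp_eq_one_iff] at h1
  obtain ⟨n, hn⟩ := h1
  have h2 : (g t).im = n * (2 * Real.pi) := by
    rw [hn]
    simp
  have h3 : (g t).im = -Real.pi := ht
  rw [h3] at h2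
  have h4 : ((2 * n + 1 : ℤ) : ℝ) = 0 := by
    push_cast
    have : Real.pi * (2 * n + 1) = 0 := by linarith
    rcases mul_eq_zero.mp this with h | h
    · linarith
    · exact h
  have h5 : (2 * n + 1 : ℤ) = 0 := by exact_mod_cast h4
  omega

end Pool.Agent.Helper63.ML
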